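import Pool.Agent.Y525.TT.Lat

/-!
Torsion in the homology of simplicial complexes (MP_9701dc_gt): the bound for the torsion.
-/

set_option autoImplicit false

open Finset

namespace Pool.Agent.Y525.TT

variable {n : ℕ}

lemma choose_sets (X : Cx n) (d : ℕ) (v : Fin n) :
    ∃ S0 S1 : Finset (Finset (Fin n)), S0 ⊆ S1 ∧ (∀ s ∈ S0, s ∈ X.faces) ∧
      (∀ s ∈ S1, s.card = d + 1) ∧ Ind d v S1 ∧ S1.card = (Rw d v).card ∧
      ∀ c : Finset (Fin n) → ℝ, (∀ s, c s ≠ 0 → s ∈ X.faces ∧ s.card = d + 1) →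
        ∃ b : Finset (Fin n) → ℝ, ∀ t ∈ Rw d v,
          ∑ s, c s * inc ℝ s t = ∑ s ∈ S0, b s * inc ℝ s t := by
  classical
  let W : Finset (Fin n) → (Rw d v → ℝ) := fun s t => inc ℝ s t
  obtain ⟨B0, hB0, -, hspan0, hli0⟩ := exists_linearIndepOn_extension (K := ℝ) (v := W)
    (s := ∅) (t := {s | s ∈ X.faces ∧ s.card = d + 1}) (linearIndepOn_empty ℝ W)
    (Set.empty_subset _)
  obtain ⟨B1, hB1, hB01, hspan1, hli1⟩ := exists_linearIndepOn_extension (K := ℝ) (v := W)
    (s := B0) (t := {s | s.card = d + 1}) hli0 (fun s hs => (hB0 hs).2)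
  have hf0 : B0.Finite := Set.toFinite B0
  have hf1 : B1.Finite := Set.toFinite B1
  refine ⟨hf0.toFinset, hf1.toFinset, ?_, ?_, ?_, ?_, ?_, ?_⟩
  · exact Set.Finite.toFinset_subset_toFinset.2 hB01
  · intro s hs
    exact (hB0 (hf0.mem_toFinset.1 hs)).1
  · intro s hs
    exact hB1 (hf1.mem_toFinset.1 hs)
  · intro g hg
    have h1 : LinearIndepOn ℝ W (hf1.toFinset : Set (Finset (Fin n))) := by
      rw [hf1.coe_toFinset]; exact hli1
    rw [linearIndepOn_finset_iff] at h1
    apply h1 g
    funext t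
    rw [Finset.sum_apply]
    exact hg t t.2
  · have hsp : ⊤ ≤ Submodule.span ℝ (Set.range fun x : B1 => W x) := by
      rw [← Set.image_eq_range]
      intro f _
      have hf : f = ∑ t : Rw d v, f t • (Pi.single t (1 : ℝ) : Rw d v → ℝ) := by
        funext t
        rw [Finset.sum_apply, Finset.sum_eq_single t]
        · simp
        · intro t' _ h
          simp [Ne.symm h]
        · intro h; exact absurd (Finset.mem_univ _) h
      rw [hf]
      apply Submodule.sum_mem
      intro t _
      apply Submodule.smul_mem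
      have hv : v ∉ (t : Finset (Fin n)) := (Finset.mem_filter.1 t.2).2.2
      have hcd : (t : Finset (Fin n)).card = d := (Finset.mem_filter.1 t.2).2.1
      have h1 : (Pi.single t (1 : ℝ) : Rw d v → ℝ) =
          sg ℝ v (t : Finset (Fin n)) • W (insert v (t : Finset (Fin n))) := by
        funext t'
        rw [Pi.smul_apply, smul_eq_mul]
        have hv' : v ∉ (t' : Finset (Fin n)) := (Finset.mem_filter.1 t'.2).2.2
        by_cases h : t' = t
        · subst h
          rw [Pi.single_eq_same]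
          change 1 = sg ℝ v (t' : Finset (Fin n)) * inc ℝ (insert v (t' : Finset (Fin n))) t'
          rw [inc_insert hv, sg_sq]
        · rw [Pi.single_eq_of_ne h]
          change 0 = sg ℝ v (t : Finset (Fin n)) * inc ℝ (insert v (t : Finset (Fin n))) t'
          have h2 : inc ℝ (insert v (t : Finset (Fin n))) (t' : Finset (Fin n)) = 0 := by
            by_contra h3
            have h4 := inc_v hv' (Finset.mem_insert_self _ _) h3
            apply h
            apply Subtype.ext
            rw [← Finset.erase_insert hv, ← Finset.erase_insert hv', h4]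
          rw [h2, mul_zero]
      rw [h1]
      apply Submodule.smul_mem
      apply hspan1
      refine ⟨_, ?_, rfl⟩
      change (insert v (t : Finset (Fin n))).card = d + 1
      rw [Finset.card_insert_of_notMem hv, hcd]
    let _ : Fintype B1 := hf1.fintype
    have h2 := Module.finrank_eq_card_basis (Module.Basis.mk (v := fun x : B1 => W x) hli1 hsp)
    rw [Module.finrank_fintype_fun_eq_card, Fintype.card_coe] at h2
    rw [h2, ← Set.toFinset_card]
    congr 1
  · intro c hc
    have h1 : (∑ s, c s • W s) ∈ Submodule.span ℝ (W '' (hf0.toFinset : Set (Finset (Fin n)))) := by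
      rw [hf0.coe_toFinset]
      apply Submodule.sum_mem
      intro s _
      by_cases hs : c s = 0
      · rw [hs, zero_smul]; exact Submodule.zero_mem _
      · apply Submodule.smul_mem
        exact hspan0 ⟨s, hc s hs, rfl⟩
    rw [Submodule.mem_span_image_finset_iff_exists_fun'] at h1
    obtain ⟨b, hb⟩ := h1
    refine ⟨b, fun t ht => ?_⟩
    have h2 := congrFun hb ⟨t, ht⟩
    simp only [Finset.sum_apply, Pi.smul_apply, smul_eq_mul, W] at h2
    exact h2.symm

/-- a cycle whose class is torsion and which is a combination of the chosen columns on the small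
set of rows is a boundary -/
lemma mem_Bc {d : ℕ} (X : Cx n) (v : Fin n) {S0 S1 : Finset (Finset (Fin n))} (h01 : S0 ⊆ S1)
    (hX : ∀ s ∈ S0, s ∈ X.faces) (hc : ∀ s ∈ S1, s.card = d + 1) (hI : Ind d v S1)
    (hsp : ∀ c : Finset (Fin n) → ℝ, (∀ s, c s ≠ 0 → s ∈ X.faces ∧ s.card = d + 1) →
        ∃ b : Finset (Fin n) → ℝ, ∀ t ∈ Rw d v,
          ∑ s, c s * inc ℝ s t = ∑ s ∈ S0, b s * inc ℝ s t)
    (z : Finset (Fin n) → ℤ) (hz : z ∈ Zc X d) (k : ℤ) (hk : k ≠ 0) (hkz : k • z ∈ Bc X d)
    (a : Finset (Fin n) → ℤ) (ha : ∀ t ∈ Rp d v S1, z t = ∑ s ∈ Sp v S1, a s * inc ℤ s t) :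
    z ∈ Bc X d := by
  classical
  have h1 := key (K := ℤ) z a ha
  set a' : Finset (Fin n) → ℤ := fun s => (if v ∈ s then sg ℤ v (s.erase v) * (z (s.erase v) -
      ∑ s' ∈ Sp v S1, a s' * inc ℤ s' (s.erase v)) else a s) with ha'
  obtain ⟨c, hcX, hcz⟩ := Submodule.mem_map.1 hkz
  obtain ⟨b, hb⟩ := hsp (fun s => (c s : ℝ)) (fun s hs => hcX s (by exact_mod_cast hs))
  have h2 : ∀ s ∈ S1, (k : ℝ) * a' s - (if s ∈ S0 then b s else 0) = 0 := by
    apply hI
    intro t ht
    have h3 : (k : ℝ) * z t = ∑ s ∈ S0, b s * inc ℝ s t := by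
      rw [← hb t ht]
      have h4 := congrFun hcz t
      rw [bd_apply, Pi.smul_apply, smul_eq_mul] at h4
      have h5 := congrArg (fun z : ℤ => (z : ℝ)) h4
      simp only [Int.cast_sum, Int.cast_mul, inc_cast] at h5
      exact h5.symm
    have h6 : (z t : ℝ) = ∑ s ∈ S1, (a' s : ℝ) * inc ℝ s t := by
      have h5 := congrArg (fun z : ℤ => (z : ℝ)) (h1 t ht)
      simp only [Int.cast_sum, Int.cast_mul, inc_cast] at h5
      exact h5
    have h7 : ∑ s ∈ S1, (if s ∈ S0 then b s else 0) * inc ℝ s t = ∑ s ∈ S0, b s * inc ℝ s t := by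
      simp only [ite_mul, zero_mul]
      rw [← Finset.sum_filter]
      congr 1
      ext s
      rw [Finset.mem_filter]
      exact ⟨fun h => h.2, fun h => ⟨h01 h, h⟩⟩
    simp only [sub_mul, mul_assoc]
    rw [Finset.sum_sub_distrib, ← Finset.mul_sum, ← h6, h7, h3, sub_self]
  have h8 : ∀ s ∈ S1, s ∉ S0 → a' s = 0 := by
    intro s hs hs0
    have h9 := h2 s hs
    rw [if_neg hs0, sub_zero] at h9
    have hk' : (k : ℝ) ≠ 0 := by exact_mod_cast hk
    exact_mod_cast (mul_eq_zero.1 h9).resolve_left hk'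
  let c' : Finset (Fin n) → ℤ := fun s => if s ∈ S0 then a' s else 0
  have hc' : c' ∈ Ch X (d + 1) := by
    intro s hs
    have hs0 : s ∈ S0 := by
      by_contra h
      exact hs (if_neg h)
    exact ⟨hX s hs0, hc s (h01 hs0)⟩
  have hsum : ∀ t, ∑ s, c' s * inc ℤ s t = ∑ s ∈ S0, a' s * inc ℤ s t := by
    intro t
    simp only [c', ite_mul, zero_mul]
    rw [← Finset.sum_filter]
    congr 1
    ext s
    simp
  have hzc : z - bd ℤ n c' = 0 := by
    apply eq_zero_of_cycle _ v
    · rw [map_sub, bd_bd, sub_zero]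
      exact LinearMap.mem_ker.1 hz.2
    · intro t hvt
      rw [Pi.sub_apply, bd_apply, hsum]
      by_cases hct : t.card = d
      · have ht : t ∈ Rw d v := Finset.mem_filter.2 ⟨Finset.mem_univ _, hct, hvt⟩
        rw [h1 t ht, sub_eq_zero]
        symm
        apply Finset.sum_subset h01
        intro s hs hs0
        have := h8 s hs hs0
        change a' s * inc ℤ s t = 0
        rw [this, zero_mul]
      · have hzt : z t = 0 := by
          by_contra h
          exact hct (hz.1 t h).2
        rw [hzt, zero_sub, neg_eq_zero]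
        apply Finset.sum_eq_zero
        intro s hs
        rw [inc_card_zero, mul_zero]
        rw [hc s (h01 hs)]
        omega
  rw [sub_eq_zero] at hzc
  exact Submodule.mem_map.2 ⟨c', hc', hzc.symm⟩

/-- the bound with a square matrix -/
theorem tors_le {d : ℕ} (hd : 1 ≤ d) (X : Cx n) (v u : Fin n) (huv : u ≠ v) :
    ((torsOrder X d : ℕ) : ℝ) ^ 2 ≤ hc d ^ ((n - 2).choose d) := by
  classical
  obtain ⟨S0, S1, h01, hX, hcd, hI, hcard, hsp⟩ := choose_sets X d v
  have hcr := card_eq hcd hcard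
  set r := (Rp d v S1).card with hr
  have e0 : Fin r ≃ Sp v S1 := (finCongr hcr.symm).trans (Sp v S1).equivFin.symm
  have ρ : Fin r ≃ Rp d v S1 := (Rp d v S1).equivFin.symm
  let e : Fin r → Finset (Fin n) := fun i => (e0 i : Finset (Fin n))
  have he : Function.Injective e := fun i j h => e0.injective (Subtype.ext h)
  let M : Matrix (Fin r) (Fin r) ℤ := Matrix.of fun i j => inc ℤ (e i) (ρ j : Finset (Fin n))
  -- transfer of sums
  have hsumtr : ∀ (c : Fin r → ℤ) (t : Finset (Fin n)),
      ∑ s ∈ Sp v S1, (if h : s ∈ Sp v S1 then c (e0.symm ⟨s, h⟩) else 0) * inc ℤ s t =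
        ∑ i, c i * inc ℤ (e i) t := by
    intro c t
    rw [← Finset.sum_coe_sort (Sp v S1)]
    rw [← Equiv.sum_comp e0]
    refine Finset.sum_congr rfl fun i _ => ?_
    simp [e]
  have hdet : M.det ≠ 0 := by
    intro h0
    obtain ⟨c, hc0, hc1⟩ := Matrix.exists_vecMul_eq_zero_iff.2 h0
    apply hc0
    have h2 := ind_small hI (fun s => if h : s ∈ Sp v S1 then c (e0.symm ⟨s, h⟩) else 0) (by
      intro t ht
      rw [hsumtr]
      have h3 := congrFun hc1 (ρ.symm ⟨t, ht⟩)
      simp only [Matrix.vecMul, dotProduct, Pi.zero_apply, M, Matrix.of_apply,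
        Equiv.apply_symm_apply] at h3
      exact h3)
    funext i
    have h4 := h2 (e0 i) (e0 i).2
    simpa using h4
  have hli : LinearIndependent ℤ (fun i => M i) := by
    rw [Fintype.linearIndependent_iff]
    intro g hg
    have h5 : Matrix.vecMul g M = 0 := by
      funext j
      have h6 := congrFun hg j
      simp only [Finset.sum_apply, Pi.smul_apply, smul_eq_mul, Pi.zero_apply] at h6
      simp only [Matrix.vecMul, dotProduct, Pi.zero_apply]
      exact h6
    have h7 := Matrix.eq_zero_of_vecMul_eq_zero hdet h5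
    intro i
    rw [h7]; rfl
  set L := Submodule.span ℤ (Set.range fun i => M i) with hL
  have hcardL : M.det.natAbs = Nat.card ((Fin r → ℤ) ⧸ L) := by
    rw [← Submodule.natAbs_det_basis_change (Pi.basisFun ℤ (Fin r)) L (Module.Basis.span hli)]
    congr 1
    rw [Module.Basis.det_apply, ← Matrix.det_transpose]
    congr 1
    ext i j
    have h5 : ((Module.Basis.span hli j : L) : Fin r → ℤ) = M j :=
      congrArg Subtype.val (Module.Basis.span_apply hli j)
    simp [Module.Basis.toMatrix, h5]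
  have hfin : Finite ((Fin r → ℤ) ⧸ L) := by
    apply Nat.finite_of_card_ne_zero
    rw [← hcardL]
    exact Int.natAbs_ne_zero.2 hdet
  -- the injection
  have hle : torsOrder X d ≤ Nat.card ((Fin r → ℤ) ⧸ L) := by
    unfold torsOrder AddSubgroup.relIndex AddSubgroup.index
    let rep : (Tc X d ⧸ ((Bc X d).toAddSubgroup.addSubgroupOf (Tc X d))) → Tc X d :=
      fun q => q.out
    have hrep : ∀ q : (Tc X d ⧸ ((Bc X d).toAddSubgroup.addSubgroupOf (Tc X d))),
        (QuotientAddGroup.mk (rep q) : Tc X d ⧸ ((Bc X d).toAddSubgroup.addSubgroupOf (Tc X d)))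
          = q := fun q => QuotientAddGroup.out_eq' q
    let φ : (Tc X d ⧸ ((Bc X d).toAddSubgroup.addSubgroupOf (Tc X d))) → ((Fin r → ℤ) ⧸ L) :=
      fun q => Submodule.Quotient.mk fun j => (rep q : Finset (Fin n) → ℤ) (ρ j)
    apply Nat.card_le_card_of_injective φ
    intro q1 q2 h12
    rw [← hrep q1, ← hrep q2, QuotientAddGroup.eq, AddSubgroup.mem_addSubgroupOf]
    have h8 := (Submodule.Quotient.eq L).1 h12.symm
    obtain ⟨c, hc⟩ := (Submodule.mem_span_range_iff_exists_fun ℤ).1 h8
    obtain ⟨hz, k, hk0, hk⟩ := (-rep q1 + rep q2).2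
    change ((-rep q1 + rep q2 : Tc X d) : Finset (Fin n) → ℤ) ∈ Bc X d
    apply mem_Bc X v h01 hX hcd hI hsp _ hz k hk0 hk
      (fun s => if h : s ∈ Sp v S1 then c (e0.symm ⟨s, h⟩) else 0)
    intro t ht
    rw [hsumtr]
    have h9 := congrFun hc (ρ.symm ⟨t, ht⟩)
    simp only [Finset.sum_apply, Pi.smul_apply, smul_eq_mul, M, Matrix.of_apply,
      Equiv.apply_symm_apply, Pi.sub_apply] at h9
    rw [h9]
    change -(rep q1 : Finset (Fin n) → ℤ) t + (rep q2 : Finset (Fin n) → ℤ) t = _
    ring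
  have hMdet : ((M.det : ℤ) : ℝ) =
      (Matrix.of fun i j : Fin r => inc ℝ (e i) (ρ j : Finset (Fin n))).det := by
    have h5 : ((M.det : ℤ) : ℝ) = ((Int.castRingHom ℝ).mapMatrix M).det :=
      RingHom.map_det (Int.castRingHom ℝ) M
    rw [h5]
    congr 1
    ext i j
    simp only [M, RingHom.mapMatrix_apply, Matrix.map_apply, Matrix.of_apply, Int.coe_castRingHom]
    exact inc_cast _ _
  have hb := det_bound (Rp d v S1) e hd
    (fun t ht => (Finset.mem_filter.1 (Finset.mem_filter.1 ht).1).2.1) he ρ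
  calc ((torsOrder X d : ℕ) : ℝ) ^ 2 ≤ ((M.det.natAbs : ℕ) : ℝ) ^ 2 := by
        gcongr
        rw [hcardL]; exact hle
    _ = (Matrix.of fun i j : Fin r => inc ℝ (e i) (ρ j : Finset (Fin n))).det ^ 2 := by
        rw [← hMdet, Nat.cast_natAbs, Int.cast_abs, sq_abs]
    _ ≤ hc d ^ r := hb
    _ ≤ hc d ^ ((n - 2).choose d) := by
        apply pow_le_pow_right₀ (hc_ge_one hd)
        rw [← hcr]
        exact card_le huv hcd hI

end Pool.Agent.Y525.TT
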