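import Mathlib

/-!
Torsion in the homology of simplicial complexes (MP_9701dc_gt): definitions and signs.
-/

set_option autoImplicit false

open Finset

namespace Pool.Agent.Y525.TT

/-- a finite simplicial complex with vertices among `0, …, n - 1` -/
structure Cx (n : ℕ) where
  /-- the faces -/
  faces : Set (Finset (Fin n))
  /-- nonempty subsets of faces are faces -/
  down : ∀ s ∈ faces, ∀ t ⊆ s, t.Nonempty → t ∈ faces

/-- the sign of the vertex `x` with respect to `t` -/
def sg (K : Type) [CommRing K] {n : ℕ} (x : Fin n) (t : Finset (Fin n)) : K :=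
  (-1) ^ (t.filter (fun y => y < x)).card

/-- the simplicial boundary of a chain with coefficients in `K`; a chain is a function on finite
sets of vertices -/
def bdFun (K : Type) [CommRing K] (n : ℕ) (c : Finset (Fin n) → K) : Finset (Fin n) → K :=
  fun t => ∑ x ∈ tᶜ, sg K x t * c (insert x t)

lemma bdFun_add (K : Type) [CommRing K] (n : ℕ) (c c' : Finset (Fin n) → K) :
    bdFun K n (c + c') = bdFun K n c + bdFun K n c' := by
  funext t
  simp only [bdFun, Pi.add_apply, mul_add, Finset.sum_add_distrib]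

lemma bdFun_smul (K : Type) [CommRing K] (n : ℕ) (a : K) (c : Finset (Fin n) → K) :
    bdFun K n (a • c) = (RingHom.id K) a • bdFun K n c := by
  funext t
  simp only [bdFun, Pi.smul_apply, smul_eq_mul, RingHom.id_apply, Finset.mul_sum]
  exact Finset.sum_congr rfl fun x _ => by ring

/-- the simplicial boundary operator on chains with coefficients in `K` -/
def bd (K : Type) [CommRing K] (n : ℕ) :
    (Finset (Fin n) → K) →ₗ[K] (Finset (Fin n) → K) where
  toFun := bdFun K n
  map_add' := bdFun_add K n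
  map_smul' := bdFun_smul K n

/-- the chain `c` is supported on faces of `X` with `k` vertices -/
def IsCh {n : ℕ} (X : Cx n) (k : ℕ) (c : Finset (Fin n) → ℤ) : Prop :=
  ∀ t, c t ≠ 0 → t ∈ X.faces ∧ t.card = k

lemma isCh_add {n : ℕ} (X : Cx n) (k : ℕ) {a b : Finset (Fin n) → ℤ} (ha : IsCh X k a)
    (hb : IsCh X k b) : IsCh X k (a + b) := by
  intro t ht
  by_cases h : a t = 0
  · by_cases h' : b t = 0
    · exact absurd (by simp [h, h']) ht
    · exact hb t h'
  · exact ha t h

lemma isCh_zero {n : ℕ} (X : Cx n) (k : ℕ) : IsCh X k 0 := fun _ ht => absurd rfl ht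

lemma isCh_smul {n : ℕ} (X : Cx n) (k : ℕ) (r : ℤ) {a : Finset (Fin n) → ℤ}
    (ha : IsCh X k a) : IsCh X k (r • a) := by
  intro t ht
  apply ha
  intro h
  exact ht (by simp [h])

/-- the integral chains of `X` on faces with `k` vertices -/
def Ch {n : ℕ} (X : Cx n) (k : ℕ) : Submodule ℤ (Finset (Fin n) → ℤ) where
  carrier := {c | IsCh X k c}
  add_mem' := isCh_add X k
  zero_mem' := isCh_zero X k
  smul_mem' r _ ha := isCh_smul X k r ha

/-- the cycles on faces with `k` vertices -/
def Zc {n : ℕ} (X : Cx n) (k : ℕ) : Submodule ℤ (Finset (Fin n) → ℤ) :=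
  Ch X k ⊓ LinearMap.ker (bd ℤ n)

/-- the boundaries on faces with `k` vertices -/
def Bc {n : ℕ} (X : Cx n) (k : ℕ) : Submodule ℤ (Finset (Fin n) → ℤ) :=
  (Ch X (k + 1)).map (bd ℤ n)

/-- `z` is a cycle on faces with `k` vertices and a nonzero multiple of `z` is a boundary -/
def IsTorsionCycle {n : ℕ} (X : Cx n) (k : ℕ) (z : Finset (Fin n) → ℤ) : Prop :=
  z ∈ Zc X k ∧ ∃ m : ℤ, m ≠ 0 ∧ m • z ∈ Bc X k

lemma isTorsionCycle_add {n : ℕ} (X : Cx n) (k : ℕ) {a b : Finset (Fin n) → ℤ}
    (ha : IsTorsionCycle X k a) (hb : IsTorsionCycle X k b) : IsTorsionCycle X k (a + b) := by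
  obtain ⟨ha1, m, hm, ha2⟩ := ha
  obtain ⟨hb1, m', hm', hb2⟩ := hb
  refine ⟨(Zc X k).add_mem ha1 hb1, m * m', mul_ne_zero hm hm', ?_⟩
  rw [smul_add]
  apply (Bc X k).add_mem
  · rw [mul_comm, mul_smul]
    exact (Bc X k).smul_mem _ ha2
  · rw [mul_smul]
    exact (Bc X k).smul_mem _ hb2

lemma isTorsionCycle_zero {n : ℕ} (X : Cx n) (k : ℕ) : IsTorsionCycle X k 0 :=
  ⟨(Zc X k).zero_mem, 1, one_ne_zero, by rw [smul_zero]; exact (Bc X k).zero_mem⟩

lemma isTorsionCycle_neg {n : ℕ} (X : Cx n) (k : ℕ) {a : Finset (Fin n) → ℤ}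
    (ha : IsTorsionCycle X k a) : IsTorsionCycle X k (-a) := by
  obtain ⟨ha1, m, hm, ha2⟩ := ha
  refine ⟨(Zc X k).neg_mem ha1, m, hm, ?_⟩
  rw [smul_neg]
  exact (Bc X k).neg_mem ha2

/-- the group of the cycles with a nonzero multiple which is a boundary -/
def Tc {n : ℕ} (X : Cx n) (k : ℕ) : AddSubgroup (Finset (Fin n) → ℤ) where
  carrier := {z | IsTorsionCycle X k z}
  add_mem' := isTorsionCycle_add X k
  zero_mem' := isTorsionCycle_zero X k
  neg_mem' := isTorsionCycle_neg X k

/-- the order of the torsion subgroup of the integral homology of `X` in degree `k - 1`: the index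
of the boundaries in the group of the cycles with a nonzero multiple which is a boundary -/
noncomputable def torsOrder {n : ℕ} (X : Cx n) (k : ℕ) : ℕ :=
  (Bc X k).toAddSubgroup.relIndex (Tc X k)

section signs

variable {K : Type} [CommRing K] {n : ℕ}

lemma sg_sq (x : Fin n) (t : Finset (Fin n)) : sg K x t * sg K x t = 1 := by
  unfold sg
  rw [← mul_pow]
  simp

lemma sg_insert {x b : Fin n} {t : Finset (Fin n)} (hb : b ∉ t) :
    sg K x (insert b t) = (if b < x then -1 else 1) * sg K x t := by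
  unfold sg
  rw [Finset.filter_insert]
  split_ifs with h
  · rw [Finset.card_insert_of_notMem (by simp [hb]), pow_succ]
    ring
  · simp

lemma flip_eq {a b : Fin n} (hab : a ≠ b) :
    ((if a < b then -1 else 1 : K)) * (if b < a then -1 else 1) = -1 := by
  rcases lt_or_gt_of_ne hab with h | h
  · simp [h, not_lt_of_gt h]
  · simp [h, not_lt_of_gt h]

/-- the basic sign relation -/
lemma sg_rel {a b : Fin n} {t : Finset (Fin n)} (ha : a ∉ t) (hb : b ∉ t) (hab : a ≠ b) :
    sg K a (insert b t) * sg K b (insert a t) = -(sg K a t * sg K b t) := by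
  rw [sg_insert hb, sg_insert ha]
  have := flip_eq (K := K) hab
  linear_combination (sg K a t * sg K b t) * this

/-- incidence numbers -/
def inc (K : Type) [CommRing K] {n : ℕ} (s t : Finset (Fin n)) : K :=
  ∑ x ∈ tᶜ, if insert x t = s then sg K x t else 0

lemma inc_insert {x : Fin n} {t : Finset (Fin n)} (hx : x ∉ t) :
    inc K (insert x t) t = sg K x t := by
  unfold inc
  rw [Finset.sum_eq_single x]
  · simp
  · intro y hy hyx
    rw [if_neg]
    intro h
    rw [Finset.mem_compl] at hy
    apply hyx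
    have h1 : y ∈ insert x t := by rw [← h]; exact Finset.mem_insert_self _ _
    rcases Finset.mem_insert.1 h1 with h2 | h2
    · exact h2
    · exact absurd h2 hy
  · intro h
    exact absurd (Finset.mem_compl.2 hx) h

lemma inc_ne {s t : Finset (Fin n)} (h : inc K s t ≠ 0) : ∃ x, x ∉ t ∧ s = insert x t := by
  unfold inc at h
  obtain ⟨x, hx, hx'⟩ := Finset.exists_ne_zero_of_sum_ne_zero h
  refine ⟨x, Finset.mem_compl.1 hx, ?_⟩
  by_contra hne
  exact hx' (if_neg fun e => hne e.symm)

lemma inc_cases (s t : Finset (Fin n)) :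
    inc K s t = 0 ∨ ∃ x, x ∉ t ∧ s = insert x t ∧ inc K s t = sg K x t := by
  by_cases h : inc K s t = 0
  · exact Or.inl h
  · obtain ⟨x, hx, rfl⟩ := inc_ne h
    exact Or.inr ⟨x, hx, rfl, inc_insert hx⟩

lemma bd_apply (c : Finset (Fin n) → K) (t : Finset (Fin n)) :
    bd K n c t = ∑ s, c s * inc K s t := by
  change ∑ x ∈ tᶜ, sg K x t * c (insert x t) = _
  unfold inc
  simp only [Finset.mul_sum]
  rw [Finset.sum_comm]
  refine Finset.sum_congr rfl fun x _ => ?_
  rw [Finset.sum_eq_single (insert x t)]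
  · simp [mul_comm]
  · intro s _ hs
    rw [if_neg fun e => hs e.symm, mul_zero]
  · intro h
    exact absurd (Finset.mem_univ _) h

lemma eq_zero_of_cycle (c : Finset (Fin n) → K) (v : Fin n) (hb : bd K n c = 0)
    (h0 : ∀ t, v ∉ t → c t = 0) : c = 0 := by
  funext t
  by_cases hv : v ∈ t
  · have h1 : bd K n c (t.erase v) = 0 := by rw [hb]; rfl
    change ∑ x ∈ (t.erase v)ᶜ, sg K x (t.erase v) * c (insert x (t.erase v)) = 0 at h1
    rw [Finset.sum_eq_single v] at h1
    · rw [Finset.insert_erase hv] at h1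
      have h2 := congrArg (fun z => sg K v (t.erase v) * z) h1
      simp only [mul_zero, ← mul_assoc, sg_sq, one_mul] at h2
      exact h2
    · intro x _ hxv
      rw [h0, mul_zero]
      intro h
      rcases Finset.mem_insert.1 h with h | h
      · exact hxv h.symm
      · exact absurd h (Finset.notMem_erase _ _)
    · intro h
      exact absurd (Finset.mem_compl.2 (Finset.notMem_erase _ _)) h
  · exact h0 t hv

lemma bd_bd [CharZero K] [NoZeroDivisors K] (c : Finset (Fin n) → K) :
    bd K n (bd K n c) = 0 := by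
  funext t
  let F : Fin n → Fin n → K := fun x y =>
    if x ≠ y then sg K x t * (sg K y (insert x t) * c (insert y (insert x t))) else 0
  have h1 : bd K n (bd K n c) t = ∑ x ∈ tᶜ, ∑ y ∈ tᶜ, F x y := by
    change ∑ x ∈ tᶜ, sg K x t * ∑ y ∈ (insert x t)ᶜ, sg K y (insert x t) *
      c (insert y (insert x t)) = _
    refine Finset.sum_congr rfl fun x hx => ?_
    rw [Finset.mul_sum]
    have h2 : (insert x t)ᶜ = tᶜ.filter (fun y => x ≠ y) := by
      ext y
      simp only [Finset.mem_compl, Finset.mem_insert, not_or, Finset.mem_filter]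
      exact ⟨fun h => ⟨h.2, fun e => h.1 e.symm⟩, fun h => ⟨fun e => h.2 e.symm, h.1⟩⟩
    rw [h2, Finset.sum_filter]
  have h3 : ∀ x ∈ tᶜ, ∀ y ∈ tᶜ, F x y = -F y x := by
    intro x hx y hy
    rw [Finset.mem_compl] at hx hy
    by_cases hxy : x = y
    · simp [F, hxy]
    · simp only [F, if_pos hxy, if_pos (Ne.symm hxy), ne_eq]
      rw [Finset.insert_comm y x t, sg_insert hx, sg_insert hy]
      have := flip_eq (K := K) hxy
      have h4 : ∀ e e' : K, e * e' = -1 → (e = 1 ∨ e = -1) → e = -e' := by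
        intro e e' h h'
        rcases h' with rfl | rfl
        · rw [one_mul] at h; rw [h]; ring
        · rw [neg_one_mul] at h; exact h.symm
      have h5 := h4 (if x < y then -1 else 1) (if y < x then -1 else 1) this (by
        by_cases hlt : x < y
        · simp [hlt]
        · simp [hlt])
      rw [h5]
      ring
  have h4 : ∑ x ∈ tᶜ, ∑ y ∈ tᶜ, F x y = -∑ x ∈ tᶜ, ∑ y ∈ tᶜ, F x y := by
    conv_lhs => rw [Finset.sum_comm]
    rw [← Finset.sum_neg_distrib]
    refine Finset.sum_congr rfl fun x hx => ?_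
    rw [← Finset.sum_neg_distrib]
    exact Finset.sum_congr rfl fun y hy => h3 y hy x hx
  rw [h1]
  exact self_eq_neg.1 h4

end signs

end Pool.Agent.Y525.TT
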