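import Pool.Agent.Y525.TT.Gram

/-!
Torsion in the homology of simplicial complexes (MP_9701dc_gt): the bound for determinants.
-/

set_option autoImplicit false

open Finset

namespace Pool.Agent.Y525.TT

/-- Gram-Schmidt: the determinant is at most the product of the norms of the vectors corrected by
combinations of the previous ones -/
lemma det_le {r : ℕ} (f : Fin r → EuclideanSpace ℝ (Fin r)) (c : Fin r → Fin r → ℝ) :
    |(Matrix.of fun i j => f i j).det| ≤
      ∏ i, ‖f i - ∑ j ∈ Finset.univ.filter (fun j => j < i), c i j • f j‖ := by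
  have h : Module.finrank ℝ (EuclideanSpace ℝ (Fin r)) = Fintype.card (Fin r) := by simp
  set b := InnerProductSpace.gramSchmidtOrthonormalBasis h f with hb
  have h1 : b.toBasis.det f = ∏ i, inner ℝ (b i) (f i) :=
    InnerProductSpace.gramSchmidtOrthonormalBasis_det h f
  have h2 : (Matrix.of fun i j => f i j).det =
      (EuclideanSpace.basisFun (Fin r) ℝ).toBasis.det f := by
    rw [Module.Basis.det_apply, ← Matrix.det_transpose]
    congr 1
  have h3 : (EuclideanSpace.basisFun (Fin r) ℝ).toBasis.det f =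
      (EuclideanSpace.basisFun (Fin r) ℝ).toBasis.det b * b.toBasis.det f := by
    rw [Module.Basis.det_apply, Module.Basis.det_apply, Module.Basis.det_apply,
      ← Matrix.det_mul]
    congr 1
    have h5 := (EuclideanSpace.basisFun (Fin r) ℝ).toBasis.toMatrix_mul_toMatrix b.toBasis (b'' := f)
    rw [← h5, OrthonormalBasis.coe_toBasis]
  have h4 : |(EuclideanSpace.basisFun (Fin r) ℝ).toBasis.det b| = 1 := by
    rcases (EuclideanSpace.basisFun (Fin r) ℝ).det_to_matrix_orthonormalBasis_real b with h | h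
    · rw [h]; norm_num
    · rw [h]; norm_num
  rw [h2, h3, abs_mul, h4, one_mul, h1, Finset.abs_prod]
  refine Finset.prod_le_prod (fun i _ => abs_nonneg _) fun i _ => ?_
  have h5 : inner ℝ (b i) (f i) =
      inner ℝ (b i) (f i - ∑ j ∈ Finset.univ.filter (fun j => j < i), c i j • f j) := by
    rw [inner_sub_right, inner_sum]
    have h6 : ∑ j ∈ Finset.univ.filter (fun j => j < i), inner ℝ (b i) (c i j • f j) = 0 := by
      apply Finset.sum_eq_zero
      intro j hj
      rw [inner_smul_right, InnerProductSpace.gramSchmidtOrthonormalBasis_inv_triangular h f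
        (Finset.mem_filter.1 hj).2, mul_zero]
    rw [h6, sub_zero]
  rw [h5]
  refine (abs_real_inner_le_norm _ _).trans ?_
  rw [b.norm_eq_one, one_mul]

/-- summation over the ranks of the elements of a finite set -/
lemma sum_rank {r : ℕ} (φ : ℕ → ℝ) (s : Finset (Fin r)) :
    ∑ i ∈ s, φ (s.filter (fun j => j < i)).card = ∑ k ∈ Finset.range s.card, φ k := by
  induction s using Finset.induction_on_max with
  | empty => simp
  | insert a s ha ih =>
    have hna : a ∉ s := fun h => lt_irrefl _ (ha a h)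
    rw [Finset.sum_insert hna, Finset.card_insert_of_notMem hna, Finset.sum_range_succ, ← ih,
      add_comm]
    congr 1
    · refine Finset.sum_congr rfl fun i hi => ?_
      congr 2
      rw [Finset.filter_insert, if_neg (not_lt_of_gt (ha i hi))]
    · congr 2
      rw [Finset.filter_insert, if_neg (lt_irrefl _)]
      exact Finset.filter_true_of_mem ha

/-- the constant -/
noncomputable def hc (d : ℕ) : ℝ := ∑ k ∈ Finset.range (d + 1), (d : ℝ) / (d + k)

lemma hD_le {d : ℕ} (hd : 1 ≤ d) (D : ℕ) :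
    ∑ k ∈ Finset.range D, (d : ℝ) / (d + k) ≤ hc d + ((D : ℝ) - (d + 1)) / 2 := by
  have hd' : (0 : ℝ) < d := by exact_mod_cast hd
  unfold hc
  rcases le_total D (d + 1) with h | h
  · have h1 : ∑ k ∈ Finset.range (d + 1), (d : ℝ) / (d + k) = ∑ k ∈ Finset.range D,
        (d : ℝ) / (d + k) + ∑ k ∈ Finset.Ico D (d + 1), (d : ℝ) / (d + k) :=
      (Finset.sum_range_add_sum_Ico _ h).symm
    have h2 : ∑ k ∈ Finset.Ico D (d + 1), (1 / 2 : ℝ) ≤
        ∑ k ∈ Finset.Ico D (d + 1), (d : ℝ) / (d + k) := by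
      apply Finset.sum_le_sum
      intro k hk
      have hk' : (k : ℝ) ≤ d := by
        have := (Finset.mem_Ico.1 hk).2
        exact_mod_cast Nat.lt_succ_iff.1 this
      rw [div_le_div_iff₀ (by norm_num) (by positivity)]
      linarith
    rw [Finset.sum_const, Nat.card_Ico, nsmul_eq_mul, Nat.cast_sub h] at h2
    push_cast at h2
    linarith
  · have h1 : ∑ k ∈ Finset.range D, (d : ℝ) / (d + k) = ∑ k ∈ Finset.range (d + 1),
        (d : ℝ) / (d + k) + ∑ k ∈ Finset.Ico (d + 1) D, (d : ℝ) / (d + k) :=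
      (Finset.sum_range_add_sum_Ico _ h).symm
    have h2 : ∑ k ∈ Finset.Ico (d + 1) D, (d : ℝ) / (d + k) ≤
        ∑ k ∈ Finset.Ico (d + 1) D, (1 / 2 : ℝ) := by
      apply Finset.sum_le_sum
      intro k hk
      have hk' : (d : ℝ) + 1 ≤ k := by
        have := (Finset.mem_Ico.1 hk).1
        exact_mod_cast this
      rw [div_le_div_iff₀ (by positivity) (by norm_num)]
      linarith
    rw [Finset.sum_const, Nat.card_Ico, nsmul_eq_mul, Nat.cast_sub h] at h2
    push_cast at h2
    linarith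

lemma hc_ge_one {d : ℕ} (hd : 1 ≤ d) : 1 ≤ hc d := by
  have hd' : (0 : ℝ) < d := by exact_mod_cast hd
  unfold hc
  have h1 : (d : ℝ) / (d + ((0 : ℕ) : ℝ)) ≤ ∑ k ∈ Finset.range (d + 1), (d : ℝ) / (d + k) :=
    Finset.single_le_sum (f := fun k : ℕ => (d : ℝ) / (d + k)) (fun k _ => by positivity)
      (Finset.mem_range.2 (Nat.succ_pos d))
  rw [Nat.cast_zero, add_zero, div_self hd'.ne'] at h1
  exact h1

lemma prod_le_of_sum {ι : Type} (s : Finset ι) (x : ι → ℝ) (hx : ∀ i ∈ s, 0 ≤ x i) (H : ℝ)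
    (hH : 0 < H) (h : ∑ i ∈ s, x i ≤ s.card * H) : ∏ i ∈ s, x i ≤ H ^ s.card := by
  calc ∏ i ∈ s, x i ≤ ∏ i ∈ s, (H * Real.exp (x i / H - 1)) := by
        refine Finset.prod_le_prod hx fun i _ => ?_
        have h1 := Real.add_one_le_exp (x i / H - 1)
        have h2 : x i = H * (x i / H - 1 + 1) := by field_simp; ring
        calc x i = H * (x i / H - 1 + 1) := h2
          _ ≤ H * Real.exp (x i / H - 1) := by gcongr
    _ = H ^ s.card * Real.exp (∑ i ∈ s, (x i / H - 1)) := by
        rw [Finset.prod_mul_distrib, Finset.prod_const, Real.exp_sum]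
    _ ≤ H ^ s.card * Real.exp 0 := by
        gcongr
        rw [Finset.sum_sub_distrib, ← Finset.sum_div, Finset.sum_const, nsmul_eq_mul, mul_one,
          sub_nonpos, div_le_iff₀ hH]
        exact h
    _ = H ^ s.card := by rw [Real.exp_zero, mul_one]

section main

variable {n : ℕ} {r : ℕ} {d : ℕ} (R : Finset (Finset (Fin n))) (e : Fin r → Finset (Fin n))

/-- the number of previous columns through `t` -/
def kk (i : Fin r) (t : Finset (Fin n)) : ℝ :=
  ∑ j ∈ Finset.univ.filter (fun j => j < i), inc ℝ (e j) t * inc ℝ (e j) t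

lemma kk_nonneg (i : Fin r) (t : Finset (Fin n)) : 0 ≤ kk e i t :=
  Finset.sum_nonneg fun _ _ => mul_self_nonneg _

/-- the coefficients -/
noncomputable def co (d : ℕ) (i j : Fin r) : ℝ :=
  ∑ t ∈ R, 1 / (d + kk e i t) * (inc ℝ (e i) t * inc ℝ (e j) t)

lemma norm_le (hd : 1 ≤ d) (hR : ∀ t ∈ R, t.card = d) (he : Function.Injective e) (i : Fin r) :
    ∑ k ∈ R, (inc ℝ (e i) k - ∑ j ∈ Finset.univ.filter (fun j => j < i),
        co R e d i j * inc ℝ (e j) k) ^ 2 ≤
      ∑ t ∈ R, inc ℝ (e i) t * inc ℝ (e i) t * (d / (d + kk e i t)) := by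
  classical
  have hd' : (0 : ℝ) < d := by exact_mod_cast hd
  set I := Finset.univ.filter (fun j : Fin r => j < i) with hI
  have hIne : ∀ j ∈ I, e i ≠ e j := by
    intro j hj h
    have h1 := (Finset.mem_filter.1 hj).2
    rw [he h] at h1
    exact lt_irrefl _ h1
  set γ : Finset (Fin n) → ℝ := fun t => 1 / (d + kk e i t) with hγ
  have hγ0 : ∀ t, 0 ≤ γ t := fun t => by
    have := kk_nonneg e i t
    simp only [hγ]; positivity
  -- expansion of the square
  have hexp : ∑ k ∈ R, (inc ℝ (e i) k - ∑ j ∈ I, co R e d i j * inc ℝ (e j) k) ^ 2 =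
      gr R (e i) (e i) - 2 * ∑ j ∈ I, co R e d i j * gr R (e i) (e j) +
        ∑ j ∈ I, ∑ l ∈ I, co R e d i j * co R e d i l * gr R (e j) (e l) := by
    have h1 : ∀ k, (inc ℝ (e i) k - ∑ j ∈ I, co R e d i j * inc ℝ (e j) k) ^ 2 =
        inc ℝ (e i) k * inc ℝ (e i) k -
          2 * ∑ j ∈ I, co R e d i j * (inc ℝ (e i) k * inc ℝ (e j) k) +
          ∑ j ∈ I, ∑ l ∈ I, co R e d i j * co R e d i l * (inc ℝ (e j) k * inc ℝ (e l) k) := by
      intro k
      have h2 : ∑ j ∈ I, ∑ l ∈ I, co R e d i j * co R e d i l *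
          (inc ℝ (e j) k * inc ℝ (e l) k) = (∑ j ∈ I, co R e d i j * inc ℝ (e j) k) ^ 2 := by
        rw [sq, Finset.sum_mul_sum]
        exact Finset.sum_congr rfl fun j _ => Finset.sum_congr rfl fun l _ => by ring
      have h3 : ∑ j ∈ I, co R e d i j * (inc ℝ (e i) k * inc ℝ (e j) k) =
          inc ℝ (e i) k * ∑ j ∈ I, co R e d i j * inc ℝ (e j) k := by
        rw [Finset.mul_sum]
        exact Finset.sum_congr rfl fun j _ => by ring
      rw [h2, h3]
      ring
    simp only [h1]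
    rw [Finset.sum_add_distrib, Finset.sum_sub_distrib, ← Finset.mul_sum]
    congr 1
    · congr 1
      congr 1
      rw [Finset.sum_comm]
      refine Finset.sum_congr rfl fun j _ => ?_
      rw [← Finset.mul_sum]
      rfl
    · rw [Finset.sum_comm]
      refine Finset.sum_congr rfl fun j _ => ?_
      rw [Finset.sum_comm]
      refine Finset.sum_congr rfl fun l _ => ?_
      rw [← Finset.mul_sum]
      rfl
  rw [hexp]
  -- the linear term
  have hlin : ∑ j ∈ I, co R e d i j * gr R (e i) (e j) =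
      ∑ t ∈ R, γ t * (inc ℝ (e i) t * inc ℝ (e i) t) * kk e i t := by
    unfold co
    simp only [Finset.sum_mul]
    rw [Finset.sum_comm]
    refine Finset.sum_congr rfl fun t ht => ?_
    unfold kk
    rw [Finset.mul_sum]
    refine Finset.sum_congr rfl fun j hj => ?_
    have h1 := gr_one (R := R) (hIne j hj) ht
    calc 1 / ((d : ℝ) + kk e i t) * (inc ℝ (e i) t * inc ℝ (e j) t) * gr R (e i) (e j)
        = 1 / ((d : ℝ) + kk e i t) * (inc ℝ (e i) t * inc ℝ (e j) t * gr R (e i) (e j)) := by ring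
      _ = _ := by rw [h1]; simp only [hγ, kk]; ring
  -- the quadratic term
  have hquad : ∑ j ∈ I, ∑ l ∈ I, co R e d i j * co R e d i l * gr R (e j) (e l) ≤
      ∑ t ∈ R, γ t ^ 2 * (inc ℝ (e i) t * inc ℝ (e i) t) * (kk e i t * (kk e i t + d)) := by
    have h1 : ∑ j ∈ I, ∑ l ∈ I, co R e d i j * co R e d i l * gr R (e j) (e l) =
        ∑ t ∈ R, ∑ t' ∈ R, ∑ j ∈ I, ∑ l ∈ I, γ t * γ t' *
          (inc ℝ (e i) t * inc ℝ (e i) t' * (inc ℝ (e j) t * inc ℝ (e l) t') *
            gr R (e j) (e l)) := by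
      have h2 : ∀ j l, co R e d i j * co R e d i l * gr R (e j) (e l) =
          ∑ t ∈ R, ∑ t' ∈ R, γ t * γ t' *
          (inc ℝ (e i) t * inc ℝ (e i) t' * (inc ℝ (e j) t * inc ℝ (e l) t') *
            gr R (e j) (e l)) := by
        intro j l
        unfold co
        rw [Finset.sum_mul_sum, Finset.sum_mul]
        refine Finset.sum_congr rfl fun t _ => ?_
        rw [Finset.sum_mul]
        refine Finset.sum_congr rfl fun t' _ => ?_
        simp only [hγ]
        ring
      simp only [h2]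
      calc ∑ j ∈ I, ∑ l ∈ I, ∑ t ∈ R, ∑ t' ∈ R, γ t * γ t' *
          (inc ℝ (e i) t * inc ℝ (e i) t' * (inc ℝ (e j) t * inc ℝ (e l) t') *
            gr R (e j) (e l))
          = ∑ j ∈ I, ∑ t ∈ R, ∑ l ∈ I, ∑ t' ∈ R, γ t * γ t' *
          (inc ℝ (e i) t * inc ℝ (e i) t' * (inc ℝ (e j) t * inc ℝ (e l) t') *
            gr R (e j) (e l)) := Finset.sum_congr rfl fun j _ => Finset.sum_comm
        _ = ∑ t ∈ R, ∑ j ∈ I, ∑ l ∈ I, ∑ t' ∈ R, γ t * γ t' *
          (inc ℝ (e i) t * inc ℝ (e i) t' * (inc ℝ (e j) t * inc ℝ (e l) t') *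
            gr R (e j) (e l)) := Finset.sum_comm
        _ = ∑ t ∈ R, ∑ j ∈ I, ∑ t' ∈ R, ∑ l ∈ I, γ t * γ t' *
          (inc ℝ (e i) t * inc ℝ (e i) t' * (inc ℝ (e j) t * inc ℝ (e l) t') *
            gr R (e j) (e l)) := Finset.sum_congr rfl fun t _ =>
              Finset.sum_congr rfl fun j _ => Finset.sum_comm
        _ = _ := Finset.sum_congr rfl fun t _ => Finset.sum_comm
    rw [h1]
    refine Finset.sum_le_sum fun t ht => ?_
    rw [← Finset.add_sum_erase R _ ht]
    have h3 : ∑ t' ∈ R.erase t, ∑ j ∈ I, ∑ l ∈ I, γ t * γ t' *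
          (inc ℝ (e i) t * inc ℝ (e i) t' * (inc ℝ (e j) t * inc ℝ (e l) t') *
            gr R (e j) (e l)) ≤ 0 := by
      apply Finset.sum_nonpos
      intro t' ht'
      apply Finset.sum_nonpos
      intro j hj
      apply Finset.sum_nonpos
      intro l hl
      apply mul_nonpos_of_nonneg_of_nonpos (mul_nonneg (hγ0 t) (hγ0 t'))
      exact gr_two R (Finset.ne_of_mem_erase ht').symm (hIne j hj) (hIne l hl)
    have h4 : ∑ j ∈ I, ∑ l ∈ I, γ t * γ t *
          (inc ℝ (e i) t * inc ℝ (e i) t * (inc ℝ (e j) t * inc ℝ (e l) t) *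
            gr R (e j) (e l)) = γ t ^ 2 * (inc ℝ (e i) t * inc ℝ (e i) t) *
            ∑ j ∈ I, ∑ l ∈ I, inc ℝ (e j) t * inc ℝ (e l) t * gr R (e j) (e l) := by
      rw [Finset.mul_sum]
      refine Finset.sum_congr rfl fun j _ => ?_
      rw [Finset.mul_sum]
      exact Finset.sum_congr rfl fun l _ => by ring
    have h5 : ∑ j ∈ I, ∑ l ∈ I, inc ℝ (e j) t * inc ℝ (e l) t * gr R (e j) (e l) ≤
        kk e i t * (kk e i t + d) := by
      have h6 : ∀ j ∈ I, ∑ l ∈ I, inc ℝ (e j) t * inc ℝ (e l) t * gr R (e j) (e l) ≤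
          (inc ℝ (e j) t * inc ℝ (e j) t) * kk e i t + (inc ℝ (e j) t * inc ℝ (e j) t) * d := by
        intro j hj
        unfold kk
        rw [← Finset.add_sum_erase I _ hj, ← Finset.add_sum_erase I (fun l =>
          inc ℝ (e l) t * inc ℝ (e l) t) hj]
        have h7 : ∑ l ∈ I.erase j, inc ℝ (e j) t * inc ℝ (e l) t * gr R (e j) (e l) =
            (inc ℝ (e j) t * inc ℝ (e j) t) * ∑ l ∈ I.erase j, inc ℝ (e l) t * inc ℝ (e l) t := by
          rw [Finset.mul_sum]
          refine Finset.sum_congr rfl fun l hl => ?_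
          exact gr_one (fun h => (Finset.ne_of_mem_erase hl) (he h).symm) ht
        rw [h7]
        have h8 : inc ℝ (e j) t * inc ℝ (e j) t * gr R (e j) (e j) ≤
            inc ℝ (e j) t * inc ℝ (e j) t * (inc ℝ (e j) t * inc ℝ (e j) t) +
              inc ℝ (e j) t * inc ℝ (e j) t * d := by
          by_cases hz : inc ℝ (e j) t = 0
          · rw [hz]; simp
          · rw [inc_sq_eq _ _ hz]
            have := gr_self_le R hR (e j)
            linarith
        linarith
      refine (Finset.sum_le_sum h6).trans (le_of_eq ?_)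
      rw [Finset.sum_add_distrib, ← Finset.sum_mul, ← Finset.sum_mul]
      change kk e i t * kk e i t + kk e i t * d = _
      ring
    rw [h4]
    have h9 : 0 ≤ γ t ^ 2 * (inc ℝ (e i) t * inc ℝ (e i) t) :=
      mul_nonneg (sq_nonneg _) (mul_self_nonneg _)
    have h10 := mul_le_mul_of_nonneg_left h5 h9
    linarith
  have hfin : gr R (e i) (e i) - 2 * ∑ t ∈ R, γ t * (inc ℝ (e i) t * inc ℝ (e i) t) * kk e i t +
      ∑ t ∈ R, γ t ^ 2 * (inc ℝ (e i) t * inc ℝ (e i) t) * (kk e i t * (kk e i t + d)) =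
      ∑ t ∈ R, inc ℝ (e i) t * inc ℝ (e i) t * (d / (d + kk e i t)) := by
    rw [gr_self_eq, Finset.mul_sum, ← Finset.sum_sub_distrib, ← Finset.sum_add_distrib]
    refine Finset.sum_congr rfl fun t _ => ?_
    have hk := kk_nonneg e i t
    have hpos : (0 : ℝ) < d + kk e i t := by linarith
    simp only [hγ]
    field_simp
    ring
  rw [← hfin, hlin]
  linarith

lemma sum_le (hd : 1 ≤ d) (hR : ∀ t ∈ R, t.card = d) (hRr : R.card = r) :
    ∑ i, ∑ t ∈ R, inc ℝ (e i) t * inc ℝ (e i) t * ((d : ℝ) / (d + kk e i t)) ≤ r * hc d := by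
  classical
  rw [Finset.sum_comm]
  have h1 : ∀ t ∈ R, ∑ i, inc ℝ (e i) t * inc ℝ (e i) t * ((d : ℝ) / (d + kk e i t)) ≤
      hc d + ((∑ i, inc ℝ (e i) t * inc ℝ (e i) t) - (d + 1)) / 2 := by
    intro t _
    set s := Finset.univ.filter (fun i : Fin r => inc ℝ (e i) t ≠ 0) with hs
    have ha : ∀ i, inc ℝ (e i) t * inc ℝ (e i) t = if inc ℝ (e i) t ≠ 0 then 1 else 0 := by
      intro i
      split_ifs with h
      · exact inc_sq_eq _ _ h
      · push Not at h
        rw [h, mul_zero]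
    have hk : ∀ i, kk e i t = ((s.filter (fun j => j < i)).card : ℝ) := by
      intro i
      unfold kk
      simp only [ha]
      rw [← Finset.sum_filter, Finset.sum_const, nsmul_eq_mul, mul_one, Finset.filter_filter, hs,
        Finset.filter_filter]
      congr 2
      ext j
      simp [and_comm]
    have hsum : ∑ i, inc ℝ (e i) t * inc ℝ (e i) t = (s.card : ℝ) := by
      simp only [ha]
      rw [← Finset.sum_filter, Finset.sum_const, nsmul_eq_mul, mul_one]
    have h2 : ∑ i, inc ℝ (e i) t * inc ℝ (e i) t * ((d : ℝ) / (d + kk e i t)) =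
        ∑ k ∈ Finset.range s.card, (d : ℝ) / (d + k) := by
      rw [← sum_rank (fun k => (d : ℝ) / (d + k)) s]
      simp only [ha, hk, ite_mul, one_mul, zero_mul]
      rw [← Finset.sum_filter]
    rw [h2, hsum]
    exact hD_le hd _
  refine (Finset.sum_le_sum h1).trans ?_
  rw [Finset.sum_add_distrib, Finset.sum_const, nsmul_eq_mul, hRr, ← Finset.sum_div,
    Finset.sum_sub_distrib, Finset.sum_const, nsmul_eq_mul, hRr, Finset.sum_comm]
  have h3 : ∑ i : Fin r, ∑ t ∈ R, inc ℝ (e i) t * inc ℝ (e i) t ≤ (r : ℝ) * (d + 1) := by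
    calc ∑ i : Fin r, ∑ t ∈ R, inc ℝ (e i) t * inc ℝ (e i) t
        ≤ ∑ _i : Fin r, ((d : ℝ) + 1) := Finset.sum_le_sum fun i _ => gr_self_le R hR (e i)
      _ = (r : ℝ) * (d + 1) := by
          rw [Finset.sum_const, Finset.card_univ, Fintype.card_fin, nsmul_eq_mul]
  linarith

/-- the determinant bound -/
theorem det_bound (hd : 1 ≤ d) (hR : ∀ t ∈ R, t.card = d) (he : Function.Injective e)
    (ρ : Fin r ≃ R) :
    (Matrix.of fun i j : Fin r => inc ℝ (e i) (ρ j : Finset (Fin n))).det ^ 2 ≤ hc d ^ r := by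
  classical
  have hRr : R.card = r := by
    have := Fintype.card_congr ρ
    rw [Fintype.card_fin, Fintype.card_coe] at this
    exact this.symm
  let f : Fin r → EuclideanSpace ℝ (Fin r) := fun i => WithLp.toLp 2 fun j => inc ℝ (e i) (ρ j)
  have h1 := det_le f (co R e d)
  have h2 : ∀ i, ‖f i - ∑ j ∈ Finset.univ.filter (fun j => j < i), co R e d i j • f j‖ ^ 2 ≤
      ∑ t ∈ R, inc ℝ (e i) t * inc ℝ (e i) t * ((d : ℝ) / (d + kk e i t)) := by
    intro i
    refine le_trans (le_of_eq ?_) (norm_le R e hd hR he i)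
    rw [EuclideanSpace.norm_sq_eq]
    have h3 : ∀ k : Fin r, ‖(f i - ∑ j ∈ Finset.univ.filter (fun j => j < i),
        co R e d i j • f j) k‖ ^ 2 = (fun t : Finset (Fin n) =>
          (inc ℝ (e i) t - ∑ j ∈ Finset.univ.filter (fun j => j < i),
            co R e d i j * inc ℝ (e j) t) ^ 2) (ρ k : Finset (Fin n)) := by
      intro k
      rw [Real.norm_eq_abs, sq_abs]
      simp [f]
    simp only [h3]
    rw [Equiv.sum_comp ρ (fun t : R => (fun t : Finset (Fin n) =>
          (inc ℝ (e i) t - ∑ j ∈ Finset.univ.filter (fun j => j < i),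
            co R e d i j * inc ℝ (e j) t) ^ 2) (t : Finset (Fin n)))]
    exact Finset.sum_coe_sort R (fun t : Finset (Fin n) =>
          (inc ℝ (e i) t - ∑ j ∈ Finset.univ.filter (fun j => j < i),
            co R e d i j * inc ℝ (e j) t) ^ 2)
  have hH : 0 < hc d := lt_of_lt_of_le one_pos (hc_ge_one hd)
  calc (Matrix.of fun i j : Fin r => inc ℝ (e i) (ρ j : Finset (Fin n))).det ^ 2
      = |(Matrix.of fun i j : Fin r => f i j).det| ^ 2 := by rw [sq_abs]
    _ ≤ (∏ i, ‖f i - ∑ j ∈ Finset.univ.filter (fun j => j < i), co R e d i j • f j‖) ^ 2 := by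
        gcongr
    _ = ∏ i, ‖f i - ∑ j ∈ Finset.univ.filter (fun j => j < i), co R e d i j • f j‖ ^ 2 := by
        rw [Finset.prod_pow]
    _ ≤ ∏ i, ∑ t ∈ R, inc ℝ (e i) t * inc ℝ (e i) t * ((d : ℝ) / (d + kk e i t)) :=
        Finset.prod_le_prod (fun i _ => sq_nonneg _) fun i _ => h2 i
    _ ≤ hc d ^ (Finset.univ : Finset (Fin r)).card := by
        apply prod_le_of_sum _ _ (fun i _ => le_trans (sq_nonneg _) (h2 i)) _ hH
        rw [Finset.card_univ, Fintype.card_fin]
        exact sum_le R e hd hR hRr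
    _ = hc d ^ r := by rw [Finset.card_univ, Fintype.card_fin]

end main

end Pool.Agent.Y525.TT
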