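import Pool.Agent.Y525.TT.Defs

/-!
Torsion in the homology of simplicial complexes (MP_9701dc_gt): inner products of the columns of
the boundary matrix.
-/

set_option autoImplicit false

open Finset

namespace Pool.Agent.Y525.TT

variable {n : ℕ}

/-- the inner product of two columns over the rows in `R` -/
def gr (R : Finset (Finset (Fin n))) (s s' : Finset (Fin n)) : ℝ :=
  ∑ t ∈ R, inc ℝ s t * inc ℝ s' t

lemma gr_comm (R : Finset (Finset (Fin n))) (s s' : Finset (Fin n)) : gr R s s' = gr R s' s := by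
  unfold gr
  exact Finset.sum_congr rfl fun t _ => mul_comm _ _

lemma inc_sq_le (s t : Finset (Fin n)) : inc ℝ s t * inc ℝ s t ≤ 1 := by
  rcases inc_cases (K := ℝ) s t with h | ⟨x, _, _, h⟩
  · rw [h]; norm_num
  · rw [h, sg_sq]

lemma inc_sq_eq (s t : Finset (Fin n)) (h : inc ℝ s t ≠ 0) : inc ℝ s t * inc ℝ s t = 1 := by
  rcases inc_cases (K := ℝ) s t with h' | ⟨x, _, _, h'⟩
  · exact absurd h' h
  · rw [h', sg_sq]

lemma card_of_inc {s t : Finset (Fin n)} (h : inc ℝ s t ≠ 0) : s.card = t.card + 1 := by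
  obtain ⟨x, hx, rfl⟩ := inc_ne h
  exact Finset.card_insert_of_notMem hx

lemma subset_of_inc {s t : Finset (Fin n)} (h : inc ℝ s t ≠ 0) : t ⊆ s := by
  obtain ⟨x, hx, rfl⟩ := inc_ne h
  exact Finset.subset_insert _ _

/-- a set with two different facets is determined by them -/
lemma eq_of_two {s s' t t' : Finset (Fin n)} (htt : t ≠ t') (h1 : inc ℝ s t ≠ 0)
    (h2 : inc ℝ s t' ≠ 0) (h3 : inc ℝ s' t ≠ 0) (h4 : inc ℝ s' t' ≠ 0) : s = s' := by
  have hc : t.card = t'.card := by
    have := card_of_inc h1; have := card_of_inc h2; omega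
  have hu : ∀ r : Finset (Fin n), inc ℝ r t ≠ 0 → inc ℝ r t' ≠ 0 → r = t ∪ t' := by
    intro r hr hr'
    symm
    apply Finset.eq_of_subset_of_card_le
    · exact Finset.union_subset (subset_of_inc hr) (subset_of_inc hr')
    · rw [card_of_inc hr]
      by_contra hlt
      push Not at hlt
      have h5 : (t ∪ t').card ≤ t.card := by omega
      have h6 : t = t ∪ t' := Finset.eq_of_subset_of_card_le Finset.subset_union_left h5
      have h7 : t' ⊆ t := by rw [h6]; exact Finset.subset_union_right
      exact htt (Finset.eq_of_subset_of_card_le h7 (by omega)).symm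
  rw [hu s h1 h2, hu s' h3 h4]

/-- (L1) -/
lemma gr_one {R : Finset (Finset (Fin n))} {s s' t : Finset (Fin n)} (hss : s ≠ s') (ht : t ∈ R) :
    inc ℝ s t * inc ℝ s' t * gr R s s' =
      (inc ℝ s t * inc ℝ s t) * (inc ℝ s' t * inc ℝ s' t) := by
  unfold gr
  rw [Finset.mul_sum, Finset.sum_eq_single_of_mem t ht]
  · ring
  · intro k _ hk
    by_contra hne
    have h1 : inc ℝ s t ≠ 0 := fun e => hne (by rw [e]; ring)
    have h2 : inc ℝ s' t ≠ 0 := fun e => hne (by rw [e]; ring)
    have h3 : inc ℝ s k ≠ 0 := fun e => hne (by rw [e]; ring)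
    have h4 : inc ℝ s' k ≠ 0 := fun e => hne (by rw [e]; ring)
    exact hss (eq_of_two hk h3 h1 h4 h2)

/-- the sign of a triple of faces of a simplex -/
lemma triple (s0 s1 s2 t t' k : Finset (Fin n)) (htt : t ≠ t') (h01 : s0 ≠ s1)
    (h02 : s0 ≠ s2) :
    inc ℝ s0 t * inc ℝ s0 t' * (inc ℝ s1 t * inc ℝ s2 t') * (inc ℝ s1 k * inc ℝ s2 k) ≤ 0 := by
  rcases inc_cases (K := ℝ) s0 t with h | ⟨a, ha, e0, h0t⟩
  · rw [h]; simp
  rcases inc_cases (K := ℝ) s0 t' with h | ⟨b, hb, e0', h0t'⟩
  · rw [h]; simp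
  rcases inc_cases (K := ℝ) s1 t with h | ⟨x, hx, e1, h1t⟩
  · rw [h]; simp
  rcases inc_cases (K := ℝ) s2 t' with h | ⟨y, hy, e2, h2t'⟩
  · rw [h]; simp
  rcases inc_cases (K := ℝ) s1 k with h | ⟨p, hp, e1', h1k⟩
  · rw [h]; simp
  rcases inc_cases (K := ℝ) s2 k with h | ⟨q, hq, e2', h2k⟩
  · rw [h]; simp
  have hab : a ≠ b := by
    rintro rfl
    apply htt
    have h1 : s0.erase a = t := by rw [e0]; exact Finset.erase_insert ha
    have h2 : s0.erase a = t' := by rw [e0']; exact Finset.erase_insert hb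
    rw [← h1, h2]
  have hbt : b ∈ t := by
    have : b ∈ insert a t := by rw [← e0, e0']; exact Finset.mem_insert_self _ _
    exact (Finset.mem_insert.1 this).resolve_left (Ne.symm hab)
  have hat' : a ∈ t' := by
    have : a ∈ insert b t' := by rw [← e0', e0]; exact Finset.mem_insert_self _ _
    exact (Finset.mem_insert.1 this).resolve_left hab
  set r := t.erase b with hr
  have htr : t = insert b r := (Finset.insert_erase hbt).symm
  have hbr : b ∉ r := Finset.notMem_erase _ _
  have har : a ∉ r := fun h => ha (Finset.mem_of_mem_erase h)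
  have ht'r : t' = insert a r := by
    have h1 : t' = s0.erase b := by rw [e0']; exact (Finset.erase_insert hb).symm
    rw [h1, e0, Finset.erase_insert_of_ne hab, hr]
  have hxa : x ≠ a := by
    rintro rfl
    exact h01 (by rw [e0, e1])
  have hyb : y ≠ b := by
    rintro rfl
    exact h02 (by rw [e0', e2])
  have hxb : x ≠ b := by
    rintro rfl
    exact hx hbt
  have hya : y ≠ a := by
    rintro rfl
    exact hy hat'
  have hxr : x ∉ r := fun h => hx (Finset.mem_of_mem_erase h)
  have hyr : y ∉ r := by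
    intro h
    apply hy
    rw [ht'r]
    exact Finset.mem_insert_of_mem h
  -- b is not in s2, a is not in s1
  have hbs2 : b ∉ s2 := by
    rw [e2, ht'r]
    simp only [Finset.mem_insert, not_or]
    exact ⟨Ne.symm hyb, Ne.symm hab, hbr⟩
  have has1 : a ∉ s1 := by
    rw [e1, htr]
    simp only [Finset.mem_insert, not_or]
    exact ⟨Ne.symm hxa, hab, har⟩
  have hbk : b ∉ k := fun h => hbs2 (by rw [e2']; exact Finset.mem_insert_of_mem h)
  have hak : a ∉ k := fun h => has1 (by rw [e1']; exact Finset.mem_insert_of_mem h)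
  have hpb : p = b := by
    have : b ∈ insert p k := by rw [← e1', e1]; exact Finset.mem_insert_of_mem hbt
    exact ((Finset.mem_insert.1 this).resolve_right hbk).symm
  have hqa : q = a := by
    have : a ∈ insert q k := by rw [← e2', e2]; exact Finset.mem_insert_of_mem hat'
    exact ((Finset.mem_insert.1 this).resolve_right hak).symm
  have hk1 : k = insert x r := by
    have h1 : k = s1.erase b := by rw [e1', hpb]; exact (Finset.erase_insert hbk).symm
    rw [h1, e1, Finset.erase_insert_of_ne hxb, hr]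
  have hk2 : k = insert y r := by
    have h1 : k = s2.erase a := by rw [e2', hqa]; exact (Finset.erase_insert hak).symm
    rw [h1, e2, ht'r, Finset.erase_insert_of_ne hya, Finset.erase_insert har]
  have hxy : x = y := by
    have h1 : x ∈ insert y r := by rw [← hk2, hk1]; exact Finset.mem_insert_self _ _
    exact (Finset.mem_insert.1 h1).resolve_right hxr
  subst hxy
  rw [h0t, h0t', h1t, h2t', h1k, h2k, hpb, hqa, hk1, ht'r, htr]
  have r1 := sg_rel (K := ℝ) har hbr hab
  have r2 := sg_rel (K := ℝ) hxr hbr hxb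
  have r3 := sg_rel (K := ℝ) hxr har hxa
  have q1 := sg_sq (K := ℝ) a r
  have q2 := sg_sq (K := ℝ) b r
  have q3 := sg_sq (K := ℝ) x r
  have key : sg ℝ a (insert b r) * sg ℝ b (insert a r) * (sg ℝ x (insert b r) *
      sg ℝ x (insert a r)) * (sg ℝ b (insert x r) * sg ℝ a (insert x r)) = -1 := by
    calc sg ℝ a (insert b r) * sg ℝ b (insert a r) * (sg ℝ x (insert b r) *
          sg ℝ x (insert a r)) * (sg ℝ b (insert x r) * sg ℝ a (insert x r))
        = (sg ℝ a (insert b r) * sg ℝ b (insert a r)) * (sg ℝ x (insert b r) *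
          sg ℝ b (insert x r)) * (sg ℝ x (insert a r) * sg ℝ a (insert x r)) := by ring
      _ = -((sg ℝ a r * sg ℝ a r) * (sg ℝ b r * sg ℝ b r) * (sg ℝ x r * sg ℝ x r)) := by
          rw [r1, r2, r3]; ring
      _ = -1 := by rw [q1, q2, q3]; norm_num
  rw [key]
  norm_num

/-- (L2) -/
lemma gr_two (R : Finset (Finset (Fin n)))
    {s0 s1 s2 t t' : Finset (Fin n)} (htt : t ≠ t')
    (h01 : s0 ≠ s1) (h02 : s0 ≠ s2) :
    inc ℝ s0 t * inc ℝ s0 t' * (inc ℝ s1 t * inc ℝ s2 t') * gr R s1 s2 ≤ 0 := by
  unfold gr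
  rw [Finset.mul_sum]
  apply Finset.sum_nonpos
  intro k _
  exact triple s0 s1 s2 t t' k htt h01 h02

/-- (L3) -/
lemma gr_self_eq (R : Finset (Finset (Fin n))) (s : Finset (Fin n)) :
    gr R s s = ∑ t ∈ R, inc ℝ s t * inc ℝ s t := rfl

lemma gr_self_le (R : Finset (Finset (Fin n))) {d : ℕ} (hR : ∀ t ∈ R, t.card = d)
    (s : Finset (Fin n)) : gr R s s ≤ d + 1 := by
  by_cases hs : s.card = d + 1
  · have h1 : gr R s s ≤ ∑ t ∈ R, if t ∈ s.image (fun x => s.erase x) then (1 : ℝ) else 0 := by
      unfold gr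
      apply Finset.sum_le_sum
      intro t _
      split_ifs with h
      · exact inc_sq_le s t
      · rcases inc_cases (K := ℝ) s t with h' | ⟨x, hx, e, _⟩
        · rw [h']; norm_num
        · exfalso
          apply h
          rw [Finset.mem_image]
          exact ⟨x, by rw [e]; exact Finset.mem_insert_self _ _, by
            rw [e]; exact Finset.erase_insert hx⟩
    refine h1.trans ?_
    rw [← Finset.sum_filter, Finset.sum_const, nsmul_eq_mul, mul_one]
    have h2 : (R.filter fun t => t ∈ s.image (fun x => s.erase x)).card ≤ s.card := by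
      refine le_trans (Finset.card_le_card ?_) (Finset.card_image_le (s := s)
        (f := fun x => s.erase x))
      intro t ht
      exact (Finset.mem_filter.1 ht).2
    rw [hs] at h2
    exact_mod_cast h2
  · have h1 : gr R s s = 0 := by
      unfold gr
      apply Finset.sum_eq_zero
      intro t ht
      by_contra hne
      have h2 : inc ℝ s t ≠ 0 := fun e => hne (by rw [e]; ring)
      apply hs
      rw [card_of_inc h2, hR t ht]
    rw [h1]
    positivity

end Pool.Agent.Y525.TT
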