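import Pool.Agent.Y525.TT.Det

/-!
Torsion in the homology of simplicial complexes (MP_9701dc_gt): choice of the columns.
-/

set_option autoImplicit false

open Finset

namespace Pool.Agent.Y525.TT

variable {n : ℕ}

/-- the rows: sets with `d` elements without `v` -/
def Rw (d : ℕ) (v : Fin n) : Finset (Finset (Fin n)) :=
  Finset.univ.filter fun t => t.card = d ∧ v ∉ t

/-- the columns without `v` -/
def Sp (v : Fin n) (S : Finset (Finset (Fin n))) : Finset (Finset (Fin n)) :=
  S.filter fun s => v ∉ s

/-- the rows which are not killed by the columns through `v` -/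
def Rp (d : ℕ) (v : Fin n) (S : Finset (Finset (Fin n))) : Finset (Finset (Fin n)) :=
  (Rw d v).filter fun t => insert v t ∉ S

lemma inc_v {K : Type} [CommRing K] {v : Fin n} {s t : Finset (Fin n)} (hv : v ∉ t) (hs : v ∈ s)
    (h : inc K s t ≠ 0) : s = insert v t := by
  obtain ⟨x, hx, rfl⟩ := inc_ne h
  rcases Finset.mem_insert.1 hs with rfl | h'
  · rfl
  · exact absurd h' hv

lemma inc_v_zero {K : Type} [CommRing K] {v : Fin n} {s t : Finset (Fin n)} (hv : v ∈ t)
    (hs : v ∉ s) : inc K s t = 0 := by
  by_contra h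
  obtain ⟨x, hx, rfl⟩ := inc_ne h
  exact hs (Finset.mem_insert_of_mem hv)

lemma inc_card_zero {K : Type} [CommRing K] {s t : Finset (Fin n)}
    (hs : s.card ≠ t.card + 1) : inc K s t = 0 := by
  by_contra h
  obtain ⟨x, hx, rfl⟩ := inc_ne h
  exact hs (Finset.card_insert_of_notMem hx)

lemma inc_cast (s t : Finset (Fin n)) : ((inc ℤ s t : ℤ) : ℝ) = inc ℝ s t := by
  unfold inc sg
  push_cast
  refine Finset.sum_congr rfl fun x _ => ?_
  split_ifs <;> simp

lemma key {K : Type} [CommRing K] {d : ℕ} {v : Fin n} {S : Finset (Finset (Fin n))}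
    (z a : Finset (Fin n) → K)
    (h : ∀ t ∈ Rp d v S, z t = ∑ s ∈ Sp v S, a s * inc K s t) :
    ∀ t ∈ Rw d v, z t = ∑ s ∈ S, (if v ∈ s then sg K v (s.erase v) * (z (s.erase v) -
      ∑ s' ∈ Sp v S, a s' * inc K s' (s.erase v)) else a s) * inc K s t := by
  intro t ht
  have hv : v ∉ t := (Finset.mem_filter.1 ht).2.2
  rw [← Finset.sum_filter_add_sum_filter_not S (fun s => v ∈ s)]
  have h1 : ∑ s ∈ S.filter (fun s => ¬ v ∈ s), (if v ∈ s then sg K v (s.erase v) *
      (z (s.erase v) - ∑ s' ∈ Sp v S, a s' * inc K s' (s.erase v)) else a s) * inc K s t =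
      ∑ s ∈ Sp v S, a s * inc K s t := by
    refine Finset.sum_congr rfl fun s hs => ?_
    rw [if_neg (Finset.mem_filter.1 hs).2]
  rw [h1]
  by_cases hc : insert v t ∈ S
  · have hmem : insert v t ∈ S.filter (fun s => v ∈ s) :=
      Finset.mem_filter.2 ⟨hc, Finset.mem_insert_self _ _⟩
    rw [Finset.sum_eq_single_of_mem (insert v t) hmem]
    · rw [if_pos (Finset.mem_insert_self _ _), Finset.erase_insert hv, inc_insert hv]
      have := sg_sq (K := K) v t
      linear_combination (-(z t - ∑ s ∈ Sp v S, a s * inc K s t)) * this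
    · intro s hs hne
      have h2 : inc K s t = 0 := by
        by_contra h3
        exact hne (inc_v hv (Finset.mem_filter.1 hs).2 h3)
      rw [h2, mul_zero]
  · have h2 : ∑ s ∈ S.filter (fun s => v ∈ s), (if v ∈ s then sg K v (s.erase v) *
      (z (s.erase v) - ∑ s' ∈ Sp v S, a s' * inc K s' (s.erase v)) else a s) * inc K s t = 0 := by
      apply Finset.sum_eq_zero
      intro s hs
      have h2 : inc K s t = 0 := by
        by_contra h3
        have := inc_v hv (Finset.mem_filter.1 hs).2 h3
        exact hc (this ▸ (Finset.mem_filter.1 hs).1)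
      rw [h2, mul_zero]
    rw [h2, zero_add]
    exact h t (Finset.mem_filter.2 ⟨ht, hc⟩)

/-- independence of the columns in `S` -/
def Ind (d : ℕ) (v : Fin n) (S : Finset (Finset (Fin n))) : Prop :=
  ∀ g : Finset (Fin n) → ℝ, (∀ t ∈ Rw d v, ∑ s ∈ S, g s * inc ℝ s t = 0) → ∀ s ∈ S, g s = 0

/-- the columns without `v` remain independent on the smaller set of rows -/
lemma ind_small {d : ℕ} {v : Fin n} {S : Finset (Finset (Fin n))} (hS : Ind d v S)
    (a : Finset (Fin n) → ℤ) (h : ∀ t ∈ Rp d v S, ∑ s ∈ Sp v S, a s * inc ℤ s t = 0) :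
    ∀ s ∈ Sp v S, a s = 0 := by
  have h1 := key (K := ℤ) (d := d) (v := v) (S := S) (fun _ => 0) a
    (fun t ht => (h t ht).symm)
  intro s hs
  have hs' := Finset.mem_filter.1 hs
  have h2 := hS (fun s => (((if v ∈ s then sg ℤ v (s.erase v) * (0 -
      ∑ s' ∈ Sp v S, a s' * inc ℤ s' (s.erase v)) else a s : ℤ)) : ℝ)) (by
    intro t ht
    have h3 := congrArg (fun z : ℤ => (z : ℝ)) (h1 t ht)
    simp only [Int.cast_zero, Int.cast_sum, Int.cast_mul, inc_cast] at h3
    exact h3.symm) s hs'.1
  rw [if_neg hs'.2] at h2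
  exact_mod_cast h2

lemma card_eq {d : ℕ} {v : Fin n} {S : Finset (Finset (Fin n))} (hS1 : ∀ s ∈ S, s.card = d + 1)
    (hc : S.card = (Rw d v).card) : (Sp v S).card = (Rp d v S).card := by
  have h1 : (S.filter (fun s => v ∈ s)).card = ((Rw d v).filter fun t => insert v t ∈ S).card := by
    symm
    apply Finset.card_bij (fun t _ => insert v t)
    · intro t ht
      exact Finset.mem_filter.2 ⟨(Finset.mem_filter.1 ht).2, Finset.mem_insert_self _ _⟩
    · intro t ht t' ht' h
      have hv := (Finset.mem_filter.1 (Finset.mem_filter.1 ht).1).2.2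
      have hv' := (Finset.mem_filter.1 (Finset.mem_filter.1 ht').1).2.2
      rw [← Finset.erase_insert hv, ← Finset.erase_insert hv']
      exact congrArg (fun s => s.erase v) h
    · intro s hs
      obtain ⟨hs1, hs2⟩ := Finset.mem_filter.1 hs
      refine ⟨s.erase v, ?_, Finset.insert_erase hs2⟩
      refine Finset.mem_filter.2 ⟨Finset.mem_filter.2 ⟨Finset.mem_univ _, ?_,
        Finset.notMem_erase _ _⟩, ?_⟩
      · rw [Finset.card_erase_of_mem hs2, hS1 s hs1]; rfl
      · rw [Finset.insert_erase hs2]; exact hs1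
  have h2 := Finset.card_filter_add_card_filter_not (s := S) (fun s => v ∈ s)
  have h3 := Finset.card_filter_add_card_filter_not (s := Rw d v) (fun t => insert v t ∈ S)
  unfold Sp Rp
  omega

/-- the number of columns without `v` -/
lemma card_le {d : ℕ} {v u : Fin n} (huv : u ≠ v) {S : Finset (Finset (Fin n))}
    (hS1 : ∀ s ∈ S, s.card = d + 1) (hS : Ind d v S) :
    (Sp v S).card ≤ (n - 2).choose d := by
  classical
  set T : Finset (Finset (Fin n)) := Finset.powersetCard d (Finset.univ \ {u, v}) with hT
  have hTc : T.card = (n - 2).choose d := by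
    rw [hT, Finset.card_powersetCard]
    congr 1
    rw [Finset.card_sdiff_of_subset (Finset.subset_univ _), Finset.card_pair huv,
      Finset.card_univ, Fintype.card_fin]
  have hli : LinearIndependent ℝ (fun (s : Sp v S) (t : T) => inc ℝ (s : Finset (Fin n)) t) := by
    rw [Fintype.linearIndependent_iff]
    intro g hg
    let a : Finset (Fin n) → ℝ := fun s => if h : s ∈ Sp v S then g ⟨s, h⟩ else 0
    have hag : ∀ s : Sp v S, a s = g s := fun s => by simp [a]
    have hsum : ∀ t, ∑ s, a s * inc ℝ s t = ∑ s ∈ Sp v S, a s * inc ℝ s t := by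
      intro t
      symm
      apply Finset.sum_subset (Finset.subset_univ _)
      intro s _ hs
      simp [a, hs]
    have hz : bd ℝ n a = 0 := by
      apply eq_zero_of_cycle (bd ℝ n a) u (bd_bd a)
      intro t hut
      rw [bd_apply, hsum]
      by_cases hvt : v ∈ t
      · apply Finset.sum_eq_zero
        intro s hs
        rw [inc_v_zero hvt (Finset.mem_filter.1 hs).2, mul_zero]
      · by_cases hct : t.card = d
        · have htT : t ∈ T := by
            rw [hT, Finset.mem_powersetCard]
            refine ⟨fun x hx => ?_, hct⟩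
            simp only [Finset.mem_sdiff, Finset.mem_univ, true_and, Finset.mem_insert,
              Finset.mem_singleton, not_or]
            exact ⟨fun e => hut (e ▸ hx), fun e => hvt (e ▸ hx)⟩
          have h1 := congrFun hg ⟨t, htT⟩
          simp only [Finset.sum_apply, Pi.smul_apply, smul_eq_mul, Pi.zero_apply] at h1
          rw [← h1, ← Finset.sum_coe_sort (Sp v S) (fun s => a s * inc ℝ s t)]
          exact Finset.sum_congr rfl fun s _ => by rw [hag]
        · apply Finset.sum_eq_zero
          intro s hs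
          rw [inc_card_zero, mul_zero]
          rw [hS1 s (Finset.mem_filter.1 hs).1]
          omega
    intro s
    have h2 := hS (fun s => if v ∈ s then 0 else a s) (by
      intro t _
      have h3 := congrFun hz t
      rw [bd_apply, hsum] at h3
      simp only [ite_mul, zero_mul]
      rw [← Finset.sum_filter_add_sum_filter_not S (fun s => v ∈ s)]
      have h4 : ∑ s ∈ S.filter (fun s => v ∈ s), (if v ∈ s then 0 else a s * inc ℝ s t) = 0 := by
        apply Finset.sum_eq_zero
        intro s hs
        rw [if_pos (Finset.mem_filter.1 hs).2]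
      have h5 : ∑ s ∈ S.filter (fun s => ¬ v ∈ s), (if v ∈ s then 0 else a s * inc ℝ s t) =
          ∑ s ∈ Sp v S, a s * inc ℝ s t := by
        refine Finset.sum_congr rfl fun s hs => ?_
        rw [if_neg (Finset.mem_filter.1 hs).2]
      rw [h4, h5, zero_add]
      exact h3) s (Finset.mem_filter.1 s.2).1
    rw [if_neg (Finset.mem_filter.1 s.2).2, hag] at h2
    exact h2
  have h6 := hli.fintype_card_le_finrank
  rw [Module.finrank_fintype_fun_eq_card, Fintype.card_coe, Fintype.card_coe, hTc] at h6
  exact h6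

end Pool.Agent.Y525.TT
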